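import Pool.Agent.Helper45.CF.GoalsC
import Pool.Agent.Helper80.CAR.NS
import Pool.Agent.Helper5.CAR.PU
import Pool.Agent.Helper22.CAR.BD
import Pool.Agent.Helper49.CAR.TENT

/-!
# Project CF (MP_d97caa_an), packet PNI: property (N) of the suspension with representations of
`Two E`
-/

set_option autoImplicit false

open scoped ComplexOrder ZeroAtInfty InnerProductSpace ComplexConjugate Topology NNReal
open Filter

namespace Pool.Agent.Helper89.CF2.PNI

open Pool.Agent.Helper61.CAR Pool.Agent.Helper34.CAR Pool.Agent.Helper45.CF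
  Pool.Agent.Helper80.CAR

theorem hPU' : S_PU := Pool.Agent.Helper5.CAR.pu Pool.Agent.Helper49.CAR.tent

theorem hBD' : S_BD := Pool.Agent.Helper22.CAR.bd

/-- The value of a pair at a real number. -/
noncomputable def tv {E : Type} [NonUnitalCStarAlgebra E] (x : Two E) (t : ℝ) : E :=
  if 0 ≤ t then x.1 (Real.toNNReal t) else x.2 (Real.toNNReal (-t))

theorem tv_toTwo {E : Type} [NonUnitalCStarAlgebra E] (f : C₀(ℝ, E)) (t : ℝ) :
    tv (toTwo E f) t = f t := by
  unfold tv
  split_ifs with h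
  · show f ((Real.toNNReal t : ℝ≥0) : ℝ) = f t
    rw [Real.coe_toNNReal t h]
  · show f (-((Real.toNNReal (-t) : ℝ≥0) : ℝ)) = f t
    rw [Real.coe_toNNReal (-t) (by linarith), neg_neg]

/-- The block diagonal representation of the pairs. -/
noncomputable def tsig {E : Type} [NonUnitalCStarAlgebra E] {I J : Type} [Fintype I]
    [DecidableEq I] [Fintype J] [DecidableEq J] (s : I → ℝ)
    (σ : E →⋆ₙₐ[ℂ] CStarMatrix J J ℂ)
    (β : (∀ _ : I, CStarMatrix J J ℂ) →⋆ₐ[ℂ] CStarMatrix (Σ _ : I, J) (Σ _ : I, J) ℂ) :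
    Two E →⋆ₙₐ[ℂ] CStarMatrix (Σ _ : I, J) (Σ _ : I, J) ℂ where
  toFun x := β (fun i => σ (tv x (s i)))
  map_smul' c x := by
    rw [MonoidHom.id_apply, ← map_smul]
    congr 1
    funext i
    have : tv (c • x) (s i) = c • tv x (s i) := by
      unfold tv
      split_ifs <;> rfl
    rw [this, map_smul]
    rfl
  map_zero' := by
    have h : (fun i : I => σ (tv (0 : Two E) (s i))) = 0 := by
      funext i
      have : tv (0 : Two E) (s i) = 0 := by
        unfold tv
        split_ifs <;> rfl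
      rw [this, map_zero]
      rfl
    rw [h, map_zero]
  map_add' x y := by
    rw [← map_add]
    congr 1
    funext i
    have : tv (x + y) (s i) = tv x (s i) + tv y (s i) := by
      unfold tv
      split_ifs <;> rfl
    rw [this, map_add]
    rfl
  map_mul' x y := by
    rw [← map_mul]
    congr 1
    funext i
    have : tv (x * y) (s i) = tv x (s i) * tv y (s i) := by
      unfold tv
      split_ifs <;> rfl
    rw [this, map_mul]
    rfl
  map_star' x := by
    rw [← map_star]
    congr 1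
    funext i
    have : tv (star x) (s i) = star (tv x (s i)) := by
      unfold tv
      split_ifs <;> rfl
    rw [this, map_star]
    rfl

theorem tsig_toTwo {E : Type} [NonUnitalCStarAlgebra E] {I J : Type} [Fintype I]
    [DecidableEq I] [Fintype J] [DecidableEq J] (s : I → ℝ)
    (σ : E →⋆ₙₐ[ℂ] CStarMatrix J J ℂ)
    (β : (∀ _ : I, CStarMatrix J J ℂ) →⋆ₐ[ℂ] CStarMatrix (Σ _ : I, J) (Σ _ : I, J) ℂ)
    (f : C₀(ℝ, E)) : tsig s σ β (toTwo E f) = bsig s σ β f := by
  show β (fun i => σ (tv (toTwo E f) (s i))) = β (fun i => σ (f (s i)))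
  congr 1
  funext i
  rw [tv_toTwo]

theorem t : S_PNI := by
  classical
  intro E _ hE F ε hε
  obtain ⟨I, _, _, s, g, hg0, hg1, hf⟩ := hPU' E F (ε / 2) (by linarith)
  obtain ⟨J, _, _, σ, v, hv, hσ⟩ := hE
    ((F ×ˢ (Finset.univ : Finset I)).image fun q => q.1 (s q.2)) (ε / 4) (by linarith)
  obtain ⟨β, -, -, -, hβ⟩ := hBD' I (fun _ => J)
  refine ⟨Σ _ : I, J, inferInstance, inferInstance, tsig s σ β,
    fun k => tens (g k.1) (v k.2), ?_, ?_⟩
  · refine c0_norm_le _ 1 zero_le_one fun t => ?_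
    have h1 : (∑ p : (Σ _ : I, J), star (tens (g p.1) (v p.2)) * tens (g p.1) (v p.2)) t
        = ((∑ i, g i t ^ 2 : ℝ) : ℂ) • ∑ p, star (v p) * v p := by
      rw [c0_sum_apply, ← Finset.univ_sigma_univ, Finset.sum_sigma]
      push_cast
      rw [Finset.sum_smul]
      refine Finset.sum_congr rfl fun i _ => ?_
      rw [Finset.smul_sum]
      refine Finset.sum_congr rfl fun p _ => ?_
      rw [star_tens_mul]
      push_cast
      rfl
    rw [h1, norm_smul, Complex.norm_real, Real.norm_of_nonneg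
      (Finset.sum_nonneg fun i _ => sq_nonneg _)]
    calc (∑ i, g i t ^ 2) * ‖∑ p, star (v p) * v p‖ ≤ 1 * 1 :=
          mul_le_mul (hg1 t) hv (norm_nonneg _) zero_le_one
      _ = 1 := one_mul 1
  · intro f hfF
    rw [tsig_toTwo]
    refine lt_of_le_of_lt (c0_norm_le _ (ε / 4 + ε / 2) (by linarith) fun t => ?_)
      (by linarith)
    have h1 : (qf (bsig s σ β f) fun k : (Σ _ : I, J) => tens (g k.1) (v k.2)) t
        = ∑ i, ((g i t ^ 2 : ℝ) : ℂ) • qf (σ (f (s i))) v := by
      have h2 : (qf (bsig s σ β f) fun k : (Σ _ : I, J) => tens (g k.1) (v k.2))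
          = ∑ i, qf (σ (f (s i))) fun p => tens (g i) (v p) :=
        hβ C₀(ℝ, E) (fun i => σ (f (s i))) (fun k : (Σ _ : I, J) => tens (g k.1) (v k.2))
      rw [h2, c0_sum_apply]
      exact Finset.sum_congr rfl fun i _ => qf_tens _ _ _ _
    have h3 : ((qf (bsig s σ β f) fun k : (Σ _ : I, J) => tens (g k.1) (v k.2)) - f) t
        = (∑ i, ((g i t ^ 2 : ℝ) : ℂ) • (qf (σ (f (s i))) v - f (s i)))
          + ((∑ i, ((g i t ^ 2 : ℝ) : ℂ) • f (s i)) - f t) := by
      have h4 : ((qf (bsig s σ β f) fun k : (Σ _ : I, J) => tens (g k.1) (v k.2)) - f) t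
        = (qf (bsig s σ β f) fun k : (Σ _ : I, J) => tens (g k.1) (v k.2)) t - f t := rfl
      rw [h4, h1]
      simp only [smul_sub, Finset.sum_sub_distrib]
      abel
    rw [h3]
    refine (norm_add_le _ _).trans (add_le_add ?_ (hf f hfF t).le)
    refine (norm_sum_le _ _).trans ?_
    calc ∑ i, ‖((g i t ^ 2 : ℝ) : ℂ) • (qf (σ (f (s i))) v - f (s i))‖
        ≤ ∑ i, g i t ^ 2 * (ε / 4) := by
          refine Finset.sum_le_sum fun i _ => ?_
          rw [norm_smul, Complex.norm_real, Real.norm_of_nonneg (sq_nonneg _)]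
          refine mul_le_mul_of_nonneg_left (hσ _ ?_).le (sq_nonneg _)
          exact Finset.mem_image.2 ⟨(f, i), Finset.mem_product.2 ⟨hfF, Finset.mem_univ _⟩, rfl⟩
      _ = (∑ i, g i t ^ 2) * (ε / 4) := (Finset.sum_mul _ _ _).symm
      _ ≤ 1 * (ε / 4) := mul_le_mul_of_nonneg_right (hg1 t) (by linarith)
      _ = ε / 4 := one_mul _

end Pool.Agent.Helper89.CF2.PNI
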